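import Pool.Agent.H654R5.PT.Stm

/-!
# The Guruswami-Umans-Vadhan condenser in abstract form
-/

namespace Pool.Agent.H654R5.PT.GUV

open Finset Polynomial

/-- the product of the `τ j` over the bits `j` of `e` -/
noncomputable def mon {R : Type*} [CommRing R] (μ e : ℕ) (τ : Fin μ → R) : R :=
  ∏ j : Fin μ, if e.testBit j then τ j else 1

theorem mon_pow {R : Type*} [CommRing R] (μ : ℕ) : ∀ (e : ℕ) (_ : e < 2 ^ μ) (x : R),
    mon μ e (fun j => x ^ (2 ^ (j : ℕ))) = x ^ e := by
  induction μ with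
  | zero =>
    intro e he x
    have : e = 0 := by simpa using he
    subst this
    simp [mon]
  | succ μ ih =>
    intro e he x
    have he2 : e / 2 < 2 ^ μ := by
      rw [pow_succ] at he
      omega
    have h1 := ih (e / 2) he2 (x ^ 2)
    unfold mon at h1 ⊢
    rw [Fin.prod_univ_succ]
    have h2 : (∏ j : Fin μ, if e.testBit (j.succ : Fin (μ + 1)) then x ^ (2 ^ ((j.succ : Fin (μ + 1)) : ℕ))
        else 1) = ∏ j : Fin μ, if (e / 2).testBit j then (x ^ 2) ^ (2 ^ (j : ℕ)) else 1 := by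
      refine prod_congr rfl fun j _ => ?_
      rw [Fin.val_succ, Nat.testBit_succ, ← pow_mul, ← pow_succ']
    have h5 : (if e.testBit ((0 : Fin (μ + 1)) : ℕ) then x ^ (2 ^ ((0 : Fin (μ + 1)) : ℕ)) else 1) =
        x ^ (e % 2) := by
      rw [Fin.val_zero, Nat.testBit_zero, pow_zero, pow_one]
      rcases Nat.mod_two_eq_zero_or_one e with h4 | h4
      · rw [h4, if_neg (by simp), pow_zero]
      · rw [h4, if_pos (by simp), pow_one]
    have h6 : (if e.testBit ((0 : Fin (μ + 1)) : ℕ) then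
        (fun j : Fin (μ + 1) => x ^ (2 ^ (j : ℕ))) 0 else 1) = x ^ (e % 2) := h5
    rw [h2, h1, ← pow_mul, h6, ← pow_add]
    congr 1
    omega

theorem mon_map {R S : Type*} [CommRing R] [CommRing S] (φ : R →+* S) (μ e : ℕ) (τ : Fin μ → R) :
    φ (mon μ e τ) = mon μ e (fun j => φ (τ j)) := by
  unfold mon
  rw [map_prod]
  refine prod_congr rfl fun j _ => ?_
  split_ifs
  · rfl
  · exact map_one φ

theorem mon_deg (μ e D : ℕ) (τ : Fin μ → Polynomial (ZMod 2)) (h : ∀ j, (τ j).natDegree ≤ D) :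
    (mon μ e τ).natDegree ≤ μ * D := by
  unfold mon
  refine (natDegree_prod_le _ _).trans ?_
  refine (sum_le_sum (g := fun _ => D) fun j _ => ?_).trans ?_
  · split_ifs
    · exact h j
    · rw [natDegree_one]; exact Nat.zero_le _
  · rw [sum_const, card_univ, Fintype.card_fin, smul_eq_mul]

/-- the value of a coefficient family at a point -/
noncomputable def val (μ : ℕ) (c : Fin (2 ^ μ) → Polynomial (ZMod 2))
    (τ : Fin μ → Polynomial (ZMod 2)) : Polynomial (ZMod 2) :=
  ∑ e : Fin (2 ^ μ), c e * mon μ e τ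

theorem exQ (μ A : ℕ) (H : Finset (Polynomial (ZMod 2)))
    (T : Polynomial (ZMod 2) → Finset (Fin μ → Polynomial (ZMod 2)))
    (hH : ∀ h ∈ H, h.Monic)
    (hlt : ∑ h ∈ H, (T h).card * h.natDegree < 2 ^ μ * A) :
    ∃ c : Fin (2 ^ μ) → Polynomial (ZMod 2), (∀ e, (c e).degree < A) ∧ (∃ e, c e ≠ 0) ∧
      ∀ h ∈ H, ∀ τ ∈ T h, h ∣ val μ c τ := by
  classical
  have : Fact (Nat.Prime 2) := ⟨Nat.prime_two⟩
  let W := (x : Σ h : H, (T h.1) × Fin (h.1.natDegree)) → ZMod 2
  let f : (Fin (2 ^ μ) → (degreeLT (ZMod 2) A)) →ₗ[ZMod 2] W :=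
    { toFun := fun c x =>
        ((val μ (fun e => (c e : Polynomial (ZMod 2))) (x.2.1 : Fin μ → Polynomial (ZMod 2))) %ₘ
          (x.1 : Polynomial (ZMod 2))).coeff x.2.2
      map_add' := by
        intro c c'
        funext x
        simp only [val, Pi.add_apply, Submodule.coe_add, add_mul, sum_add_distrib, add_modByMonic,
          coeff_add]
        rfl
      map_smul' := by
        intro r c
        funext x
        simp only [val, Pi.smul_apply, Submodule.coe_smul, smul_mul_assoc, ← smul_sum,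
          smul_modByMonic, coeff_smul, RingHom.id_apply]
        rfl }
  have : FiniteDimensional (ZMod 2) (degreeLT (ZMod 2) A) :=
    LinearEquiv.finiteDimensional (degreeLTEquiv (ZMod 2) A).symm
  have hV : Module.finrank (ZMod 2) (Fin (2 ^ μ) → (degreeLT (ZMod 2) A)) = 2 ^ μ * A := by
    rw [Module.finrank_pi_fintype]
    have h1 : Module.finrank (ZMod 2) (degreeLT (ZMod 2) A) = A := by
      rw [(degreeLTEquiv (ZMod 2) A).finrank_eq, Module.finrank_fin_fun]
    rw [h1, sum_const, card_univ, Fintype.card_fin, smul_eq_mul]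
  have hW : Module.finrank (ZMod 2) W = ∑ h ∈ H, (T h).card * h.natDegree := by
    rw [Module.finrank_fintype_fun_eq_card, Fintype.card_sigma]
    rw [← Finset.sum_coe_sort H (fun h => (T h).card * h.natDegree)]
    refine sum_congr rfl fun h _ => ?_
    rw [Fintype.card_prod, Fintype.card_coe, Fintype.card_fin]
  have hker : LinearMap.ker f ≠ ⊥ := by
    refine LinearMap.ker_ne_bot_of_finrank_lt ?_
    rw [hV, hW]
    exact hlt
  obtain ⟨c, hc1, hc2⟩ := (Submodule.ne_bot_iff _).1 hker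
  refine ⟨fun e => (c e : Polynomial (ZMod 2)), fun e => mem_degreeLT.1 (c e).2, ?_, ?_⟩
  · by_contra hcon
    push Not at hcon
    exact hc2 (funext fun e => Subtype.ext (hcon e))
  · intro h hh τ hτ
    rw [← modByMonic_eq_zero_iff_dvd (hH h hh)]
    ext i
    rw [coeff_zero]
    by_cases hi : i < h.natDegree
    · have h1 : f c = 0 := hc1
      exact congrFun h1 ⟨⟨h, hh⟩, ⟨τ, hτ⟩, ⟨i, hi⟩⟩
    · refine coeff_eq_zero_of_degree_lt ?_
      have h2 := degree_modByMonic_lt (val μ (fun e => (c e : Polynomial (ZMod 2))) τ) (hH h hh)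
      refine h2.trans_le ?_
      rw [degree_eq_natDegree (hH h hh).ne_zero]
      exact_mod_cast (by omega : h.natDegree ≤ i)

theorem exQE (μ A : ℕ) (H : Finset (Polynomial (ZMod 2)))
    (T : Polynomial (ZMod 2) → Finset (Fin μ → Polynomial (ZMod 2))) (E : Polynomial (ZMod 2))
    (hE : 0 < E.natDegree) (hco : ∀ h ∈ H, IsCoprime h E) :
    ∀ (m : ℕ) (c : Fin (2 ^ μ) → Polynomial (ZMod 2)), ∑ e, (c e).natDegree ≤ m →
      (∀ e, (c e).degree < A) → (∃ e, c e ≠ 0) → (∀ h ∈ H, ∀ τ ∈ T h, h ∣ val μ c τ) →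
      ∃ c' : Fin (2 ^ μ) → Polynomial (ZMod 2), (∀ e, (c' e).degree < A) ∧ (∃ e, ¬ E ∣ c' e) ∧
        ∀ h ∈ H, ∀ τ ∈ T h, h ∣ val μ c' τ := by
  have : Fact (Nat.Prime 2) := ⟨Nat.prime_two⟩
  have hE0 : E ≠ 0 := by
    rintro rfl
    rw [natDegree_zero] at hE
    exact lt_irrefl _ hE
  have key : ∀ (c : Fin (2 ^ μ) → Polynomial (ZMod 2)), (∀ e, (c e).degree < A) →
      (∃ e, c e ≠ 0) → (∀ h ∈ H, ∀ τ ∈ T h, h ∣ val μ c τ) → (∀ e, E ∣ c e) →
      ∃ c' : Fin (2 ^ μ) → Polynomial (ZMod 2), ∑ e, (c' e).natDegree < ∑ e, (c e).natDegree ∧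
        (∀ e, (c' e).degree < A) ∧ (∃ e, c' e ≠ 0) ∧ (∀ h ∈ H, ∀ τ ∈ T h, h ∣ val μ c' τ) := by
    intro c h1 h2 h3 h4
    choose c' hc' using h4
    obtain ⟨e0, he0⟩ := h2
    have hne : ∀ e, c e ≠ 0 → c' e ≠ 0 := by
      intro e he h0
      rw [hc' e, h0, mul_zero] at he
      exact he rfl
    have hz : ∀ e, c e = 0 → c' e = 0 := by
      intro e he
      rw [hc' e] at he
      exact (mul_eq_zero.1 he).resolve_left hE0
    have hdeg : ∀ e, c' e ≠ 0 → (c e).natDegree = E.natDegree + (c' e).natDegree := by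
      intro e he
      rw [hc' e, natDegree_mul hE0 he]
    refine ⟨c', ?_, ?_, ⟨e0, hne e0 he0⟩, ?_⟩
    · refine sum_lt_sum (fun e _ => ?_) ⟨e0, mem_univ _, ?_⟩
      · by_cases he : c' e = 0
        · rw [he, natDegree_zero]; exact Nat.zero_le _
        · rw [hdeg e he]; omega
      · rw [hdeg e0 (hne e0 he0)]; omega
    · intro e
      by_cases he : c e = 0
      · rw [hz e he, ← he]; exact h1 e
      · refine lt_of_le_of_lt ?_ (h1 e)
        refine degree_le_of_dvd ⟨E, ?_⟩ he
        rw [mul_comm]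
        exact hc' e
    · intro h hh τ hτ
      have h5 : val μ c τ = E * val μ c' τ := by
        unfold val
        rw [mul_sum]
        refine sum_congr rfl fun e _ => ?_
        rw [hc' e, mul_assoc]
      have h6 := h3 h hh τ hτ
      rw [h5] at h6
      exact (hco h hh).dvd_of_dvd_mul_left h6
  intro m
  induction m with
  | zero =>
    intro c h0 h1 h2 h3
    by_cases h4 : ∀ e, E ∣ c e
    · obtain ⟨c', h5, _⟩ := key c h1 h2 h3 h4
      omega
    · push Not at h4
      exact ⟨c, h1, h4, h3⟩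
  | succ m ih =>
    intro c h0 h1 h2 h3
    by_cases h4 : ∀ e, E ∣ c e
    · obtain ⟨c', h5, h6, h7, h8⟩ := key c h1 h2 h3 h4
      exact ih c' (by omega) h6 h7 h8
    · push Not at h4
      exact ⟨c, h1, h4, h3⟩

theorem monic_of_ne {p : Polynomial (ZMod 2)} (hp : p ≠ 0) : p.Monic := by
  have h0 : ∀ a : ZMod 2, a ≠ 0 → a = 1 := by decide
  exact h0 _ (leadingCoeff_ne_zero.2 hp)

open Classical in
theorem GUV_proof : S_GUV := by
  have : Fact (Nat.Prime 2) := ⟨Nat.prime_two⟩
  intro μ n N E H X F hEi hEH hEX hnE hXd hXc hF hH hN hμ hΛ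
  by_contra hcon
  push Not at hcon
  have hE0 : E ≠ 0 := hEi.ne_zero
  have hEm : E.Monic := monic_of_ne hE0
  have hEd : 0 < E.natDegree := hEi.natDegree_pos
  set T : Polynomial (ZMod 2) → Finset (Fin μ → Polynomial (ZMod 2)) :=
    fun h => X.image (fun P => fun j : Fin μ => F j P %ₘ h) with hT
  set Λ := ∑ h ∈ H, h.natDegree with hΛd
  have hΛ1 : 2 ≤ Λ := by
    have : 1 ≤ μ * N := Nat.one_le_iff_ne_zero.2 (by positivity)
    nlinarith
  have hTc : ∀ h ∈ H, (T h).card ≤ 2 ^ (μ - 1) - 1 := by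
    intro h hh
    have h1 := hcon h hh
    have h2 : 2 ^ μ = 2 * 2 ^ (μ - 1) := by
      rw [← pow_succ']
      congr 1
      omega
    have h3 : 2 * (T h).card < 2 ^ μ := h1
    omega
  have hlt : ∑ h ∈ H, (T h).card * h.natDegree < 2 ^ μ * ((Λ + 1) / 2) := by
    have h1 : ∑ h ∈ H, (T h).card * h.natDegree ≤ (2 ^ (μ - 1) - 1) * Λ := by
      rw [hΛd, mul_sum]
      exact sum_le_sum fun h hh => Nat.mul_le_mul_right _ (hTc h hh)
    have h2 : 2 ^ μ = 2 * 2 ^ (μ - 1) := by
      rw [← pow_succ']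
      congr 1
      omega
    have h3 : Λ ≤ 2 * ((Λ + 1) / 2) := by omega
    have h4 : 1 ≤ 2 ^ (μ - 1) := Nat.one_le_two_pow
    have h5 : (2 ^ (μ - 1) - 1) * Λ < 2 ^ (μ - 1) * Λ :=
      Nat.mul_lt_mul_of_pos_right (by omega) (by omega)
    calc ∑ h ∈ H, (T h).card * h.natDegree ≤ (2 ^ (μ - 1) - 1) * Λ := h1
      _ < 2 ^ (μ - 1) * Λ := h5
      _ ≤ 2 ^ (μ - 1) * (2 * ((Λ + 1) / 2)) := Nat.mul_le_mul_left _ h3
      _ = 2 ^ μ * ((Λ + 1) / 2) := by rw [h2]; ring
  obtain ⟨c0, hc1, hc2, hc3⟩ := exQ μ ((Λ + 1) / 2) H T (fun h hh => (hH h hh).1) hlt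
  have hco : ∀ h ∈ H, IsCoprime h E := by
    intro h hh
    have h1 : ¬ h ∣ E := by
      intro h2
      have h3 : Associated h E := (hH h hh).2.associated_of_dvd hEi h2
      have h4 := eq_of_monic_of_associated (hH h hh).1 hEm h3
      exact hEH (h4 ▸ hh)
    exact ((hH h hh).2.coprime_iff_not_dvd).2 h1
  obtain ⟨c, hcA, ⟨e0, he0⟩, hcT⟩ := exQE μ ((Λ + 1) / 2) H T E hEd hco _ c0 le_rfl hc1 hc2 hc3
  -- the values vanish
  have hval : ∀ P ∈ X, val μ c (fun j => F j P) = 0 := by
    intro P hP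
    have hdvd : ∀ h ∈ H, h ∣ val μ c (fun j => F j P) := by
      intro h hh
      have h1 := hcT h hh (fun j => F j P %ₘ h) (mem_image.2 ⟨P, hP, rfl⟩)
      rw [← AdjoinRoot.mk_eq_zero] at h1 ⊢
      rw [← h1]
      unfold val
      rw [map_sum, map_sum]
      refine sum_congr rfl fun e _ => ?_
      rw [map_mul, map_mul, mon_map, mon_map]
      congr 2
      funext j
      rw [AdjoinRoot.mk_eq_mk]
      have h2 := modByMonic_add_div (F j P) h
      refine ⟨F j P /ₘ h, ?_⟩
      linear_combination -h2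
    have hprod : (∏ h ∈ H, h) ∣ val μ c (fun j => F j P) := by
      refine Finset.prod_dvd_of_coprime ?_ hdvd
      intro h hh h' hh' hne
      have h1 : ¬ h ∣ h' := by
        intro h2
        have h3 : Associated h h' := (hH h hh).2.associated_of_dvd (hH h' hh').2 h2
        exact hne (eq_of_monic_of_associated (hH h hh).1 (hH h' hh').1 h3)
      exact ((hH h hh).2.coprime_iff_not_dvd).2 h1
    by_contra hne
    have h1 := natDegree_le_of_dvd hprod hne
    rw [natDegree_prod_of_monic _ _ (fun h hh => (hH h hh).1)] at h1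
    have h2 : (val μ c (fun j => F j P)).natDegree ≤ ((Λ + 1) / 2 - 1) + μ * (N - 1) := by
      unfold val
      refine natDegree_sum_le_of_forall_le _ _ fun e _ => ?_
      refine natDegree_mul_le.trans ?_
      refine Nat.add_le_add ?_ ?_
      · have h3 := hcA e
        by_cases h4 : c e = 0
        · rw [h4, natDegree_zero]; exact Nat.zero_le _
        · rw [degree_eq_natDegree h4] at h3
          have h5 : (c e).natDegree < (Λ + 1) / 2 := by exact_mod_cast h3
          omega
      · refine mon_deg μ e (N - 1) _ fun j => ?_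
        have h3 := (hF P hP j).1
        by_cases h4 : F j P = 0
        · rw [h4, natDegree_zero]; exact Nat.zero_le _
        · rw [degree_eq_natDegree h4] at h3
          have h5 : (F j P).natDegree < N := by exact_mod_cast h3
          omega
    have h6 : Λ ≤ ((Λ + 1) / 2 - 1) + μ * (N - 1) := h1.trans h2
    have h7 : μ * (N - 1) + μ = μ * N := by
      rw [← Nat.mul_succ]
      congr 1
      omega
    have h8 : 2 * (μ * N) ≤ Λ := by rw [← mul_assoc]; exact hΛ
    omega
  -- the field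
  have : Fact (Irreducible E) := ⟨hEi⟩
  set q : Polynomial (AdjoinRoot E) :=
    ∑ e : Fin (2 ^ μ), C (AdjoinRoot.mk E (c e)) * Polynomial.X ^ (e : ℕ) with hq
  have hq0 : q = 0 := by
    refine eq_zero_of_natDegree_lt_card_of_eval_eq_zero' q (X.image (AdjoinRoot.mk E)) ?_ ?_
    · intro z hz
      obtain ⟨P, hP, rfl⟩ := mem_image.1 hz
      have h1 := congrArg (AdjoinRoot.mk E) (hval P hP)
      rw [map_zero] at h1
      rw [← h1, hq, eval_finsetSum]
      unfold val
      rw [map_sum]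
      refine sum_congr rfl fun e _ => ?_
      rw [eval_mul, eval_C, eval_pow, eval_X, map_mul, mon_map]
      congr 1
      rw [← mon_pow μ e e.2 (AdjoinRoot.mk E P)]
      congr 1
      funext j
      rw [← map_pow, AdjoinRoot.mk_eq_mk]
      have h2 : E ∣ F j P - P ^ 2 ^ (j : ℕ) := hEX.trans (hF P hP j).2
      rw [← neg_sub]
      exact (dvd_neg.2 h2)
    · have hinj : Set.InjOn (AdjoinRoot.mk E) X := by
        intro P hP P' hP' heq
        rw [AdjoinRoot.mk_eq_mk] at heq
        by_contra hne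
        have h1 : (P - P').degree < n :=
          lt_of_le_of_lt (degree_sub_le _ _) (max_lt (hXd P hP) (hXd P' hP'))
        have h2 := natDegree_le_of_dvd heq (sub_ne_zero.2 hne)
        rw [degree_eq_natDegree (sub_ne_zero.2 hne)] at h1
        have h3 : (P - P').natDegree < n := by exact_mod_cast h1
        omega
      rw [card_image_of_injOn hinj, hXc]
      have h1 : q.degree < ((2 ^ μ : ℕ) : WithBot ℕ) := by
        rw [hq]
        refine lt_of_le_of_lt (degree_sum_le _ _) ?_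
        rw [Finset.sup_lt_iff (WithBot.bot_lt_coe _)]
        intro e _
        refine lt_of_le_of_lt (degree_C_mul_X_pow_le _ _) ?_
        exact_mod_cast e.2
      by_cases h2 : q = 0
      · rw [h2, natDegree_zero]
        positivity
      · rw [degree_eq_natDegree h2] at h1
        exact_mod_cast h1
  have hce : q.coeff (e0 : ℕ) = AdjoinRoot.mk E (c e0) := by
    rw [hq, finsetSum_coeff]
    rw [Finset.sum_eq_single e0]
    · rw [coeff_C_mul_X_pow, if_pos rfl]
    · intro e _ hne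
      rw [coeff_C_mul_X_pow, if_neg]
      intro h
      exact hne (Fin.ext h.symm)
    · intro h
      exact absurd (mem_univ _) h
  rw [hq0, coeff_zero] at hce
  exact he0 (AdjoinRoot.mk_eq_zero.1 hce.symm)

end Pool.Agent.H654R5.PT.GUV
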